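import Pool.Agent.V7H92.GP.Cy4
import Pool.Agent.N275.GP.Res

set_option autoImplicit false

/-!
# Isospectral quadrilaterals inscribed in circles are congruent

Two convex quadrilaterals whose vertices lie on circles (cyclic quadrilaterals) and which have the
same Dirichlet spectrum (up to finitely many eigenvalues) are congruent.

The class contains quadrilaterals for which the distances of the two pairs of opposite sides are
equal; such quadrilaterals, if they have no parallel sides, are never covered by the theorem on
convex quadrilaterals with different distances of the opposite sides.

Main idea: by an inclusion-exclusion identity for Brownian loops the remainder of the heat trace,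
after the three classical heat invariants are subtracted, is a sum of positive terms over the pairs of
sides which meet beyond the side between them, up to an exponentially smaller error. A cyclic
quadrilateral without parallel sides has two such pairs, and the sides between them meet at the
vertex with the largest interior angle. One of the two sides between has two interior angles which
are not acute, the other one has an interior angle which is not obtuse. If the two terms have the
same exponential rate and there is no right angle, the second term dominates the first one, as the
diffraction at an acute angle is of a lower order in time. So the leading diffraction coefficient of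
one term is a spectral invariant in all cases; together with the constant heat invariant it
determines the angles, by monotonicity. Finally two isospectral convex quadrilaterals with the same
angles in the same order are congruent.
-/

open Filter
open Pool.Agent.W780.PG (IsConvexPolygon region)
open Pool.Agent.W703.GP (dirichletEigenvalue)

namespace Pool.Agent.Results.MP_5b0138_an.CyclicQuadsH92

/-- the four vertices are on a circle -/
def Cyclic (p : Fin (1 + 3) → ℂ) : Prop := ∃ (c : ℂ) (r : ℝ), ∀ i, dist (p i) c = r

/-- `p`, `q : Fin (1 + 3) → ℂ` with `IsConvexPolygon p`, `IsConvexPolygon q` list the vertices of
convex quadrilaterals `region p`, `region q`, in counterclockwise order. The Dirichlet eigenvalues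
number `k`, with multiplicity, defined by the min-max formula, agree for all but finitely many `k`,
and `φ : ℂ ≃ᵢ ℂ` is an isometry of the plane. -/
theorem result (p q : Fin (1 + 3) → ℂ) (hp : IsConvexPolygon p) (hq : IsConvexPolygon q)
    (cp : Cyclic p) (cq : Cyclic q)
    (hspec : ∀ᶠ k in atTop, dirichletEigenvalue (region p) k = dirichletEigenvalue (region q) k) :
    ∃ φ : ℂ ≃ᵢ ℂ, φ '' region p = region q :=
  Pool.Agent.V7H92.GP.cyclic hp hq cp cq (Pool.Agent.R225.LP.almost hp hq hspec)

end Pool.Agent.Results.MP_5b0138_an.CyclicQuadsH92
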