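import Pool.Agent.V7H92.GP.Kite3
import Pool.Agent.N275.GP.Res

set_option autoImplicit false

/-!
# Isospectral kites are congruent

Two convex kites with the same Dirichlet spectrum (up to finitely many eigenvalues) are congruent.

The distances of the two pairs of opposite sides of a kite are equal, as these pairs are mirror
images of each other; so a kite that is not a rhombus is never covered by the theorem on convex
quadrilaterals with different distances of the opposite sides.

Main idea: by an inclusion-exclusion identity for Brownian loops the remainder of the heat trace,
after the three classical heat invariants are subtracted, is a sum of positive terms over the pairs of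
sides which meet beyond the sides between them, up to an exponentially smaller error. A kite which is
not a rhombus has two such pairs, mirror images of each other, and the common value of their terms
is, up to an exponentially smaller error, the function of one side and its two angles whose
asymptotic behaviour determines this side and the two angles, but not their order. If the order is
the same in the two kites, they have the same angles, and are congruent. If it is not, the constant
heat invariant shows that the two angles are equal.
-/

open Filter
open Pool.Agent.W780.PG (IsConvexPolygon region)
open Pool.Agent.W703.GP (dirichletEigenvalue)

namespace Pool.Agent.Results.MP_5b0138_an.KitesH92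

/-- a kite whose axis goes through the vertices number `0` and `2`: the two sides at the vertex `0`
have the same length, and the two sides at the vertex `2` have the same length -/
def Kite (p : Fin (1 + 3) → ℂ) : Prop :=
  ‖p 1 - p 0‖ = ‖p 3 - p 0‖ ∧ ‖p 1 - p 2‖ = ‖p 3 - p 2‖

/-- `p`, `q : Fin (1 + 3) → ℂ` with `IsConvexPolygon p`, `IsConvexPolygon q` list the vertices of
convex quadrilaterals `region p`, `region q`, in counterclockwise order. The Dirichlet eigenvalues
number `k`, with multiplicity, defined by the min-max formula, agree for all but finitely many `k`,
and `φ : ℂ ≃ᵢ ℂ` is an isometry of the plane. -/
theorem result (p q : Fin (1 + 3) → ℂ) (hp : IsConvexPolygon p) (hq : IsConvexPolygon q)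
    (kp : Kite p) (kq : Kite q)
    (hspec : ∀ᶠ k in atTop, dirichletEigenvalue (region p) k = dirichletEigenvalue (region q) k) :
    ∃ φ : ℂ ≃ᵢ ℂ, φ '' region p = region q :=
  Pool.Agent.V7H92.GP.kites hp hq kp kq (Pool.Agent.R225.LP.almost hp hq hspec)

end Pool.Agent.Results.MP_5b0138_an.KitesH92
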