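import Pool.Agent.V7H92.GP.Few3

set_option autoImplicit false

/-!
# Finitely many isospectral convex polygons have the same angles

Let `N = n + 3`. Among the convex `N`-gons without parallel sides which have given angles in a given
cyclic order there are at most `(N (N - 3) / 2) ^ (N - 3)` with the same Dirichlet spectrum (up to
finitely many eigenvalues), up to congruence. No genericity is assumed, neither of the lengths of the
sides nor of the angles. In particular a continuous family of isospectral convex polygons which
changes only the lengths of the sides, and has no parallel sides, consists of congruent polygons.

Main idea: by an inclusion-exclusion identity for Brownian loops the remainder of the heat trace,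
after the three classical heat invariants are subtracted, is a sum over the pairs of sides whose
extensions meet beyond the sides between them, up to an error which is exponentially smaller than the
terms which are used. All these terms are positive. Assume that the lengths of the sides in a set `S`
are known. After the terms of the pairs which have only sides of `S` between them are subtracted, the
exponential order of what remains is the square of the least distance of the other pairs of this
kind, even if there are several such pairs: there is no cancellation. A pair with the least distance
has exactly one unknown side between it, and as the angles are known its distance determines the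
length of this side. So if two polygons have the same angles, and the same pairs are minimal in each
of the `N - 3` steps, then they have `N - 3` sides in common, and the perimeter and the closing
condition give the other three. There are `N (N - 3) / 2` pairs in each step.
-/

open Filter
open Pool.Agent.W780.PG (IsConvexPolygon region)
open Pool.Agent.W703.GP (dirichletEigenvalue)

namespace Pool.Agent.Results.MP_5b0138_an.PrescribedAnglesH92

/-- the interior angle of the polygon at the vertex number `i` -/
noncomputable def interiorAngle {n : ℕ} (p : Fin (n + 3) → ℂ) (i : Fin (n + 3)) : ℝ :=
  EuclideanGeometry.angle (p (i - 1)) (p i) (p (i + 1))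

/-- no two sides are parallel -/
def NoParallelSides {n : ℕ} (p : Fin (n + 3) → ℂ) : Prop :=
  ∀ i j, i ≠ j → ∀ r : ℝ, p (i + 1) - p i ≠ r * (p (j + 1) - p j)

/-- congruence: `φ : ℂ ≃ᵢ ℂ` is an isometry of the plane -/
def Congruent (D D' : Set ℂ) : Prop := ∃ φ : ℂ ≃ᵢ ℂ, φ '' D = D'

/-- `P k : Fin (n + 3) → ℂ`, `k : Fin K`, with `IsConvexPolygon (P k)` list the vertices of convex
polygons `region (P k)`, in counterclockwise order. They have the same angles `θ` in the same order
and no parallel sides, all but finitely many Dirichlet eigenvalues (with multiplicity, defined by the
min-max formula) agree, and no two of them are congruent. -/
theorem result (n K : ℕ) (θ : Fin (n + 3) → ℝ) (P : Fin K → Fin (n + 3) → ℂ)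
    (hconv : ∀ k, IsConvexPolygon (P k)) (hpar : ∀ k, NoParallelSides (P k))
    (hang : ∀ k i, interiorAngle (P k) i = θ i)
    (hspec : ∀ k l, ∀ᶠ m in atTop,
      dirichletEigenvalue (region (P k)) m = dirichletEigenvalue (region (P l)) m)
    (hne : ∀ k l, k ≠ l → ¬ Congruent (region (P k)) (region (P l))) :
    K ≤ ((n + 3) * n / 2) ^ n :=
  Pool.Agent.V7H92.GP.few' P hconv hpar (fun k l i => (hang k i).trans (hang l i).symm) hspec hne

end Pool.Agent.Results.MP_5b0138_an.PrescribedAnglesH92
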