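import Pool.Agent.V7H92.GP.Quad2
import Pool.Agent.N275.GP.Res

set_option autoImplicit false

/-!
# Isospectral convex quadrilaterals with the same angles are congruent

Two convex quadrilaterals with the same angles in the same cyclic order and with the same Dirichlet
spectrum (up to finitely many eigenvalues) are congruent. Nothing is assumed of the distances of the
opposite sides: they may be equal, which is the case that was left out so far.

Main idea: if no sides are parallel, there are two short pairs of opposite sides, each with one side
between them, and these two sides are neighbours. The exponential order of the remainder of the heat
trace gives the smaller one of the two distances, even if they are equal. If the same pair is nearest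
in both quadrilaterals, then the side between it has the same length in both, and the perimeter
and the closing condition give the other sides. Otherwise the nearest pair is unique in each
quadrilateral, and the asymptotic behaviour of the remainder gives also the two angles of the side
between; so the two sides have the same angles at their ends, the angles of the quadrilateral are
symmetric, and the mirror image of one of the two quadrilaterals has the same nearest pair as the
other one.
-/

open Filter
open Pool.Agent.W780.PG (IsConvexPolygon region)
open Pool.Agent.W703.GP (dirichletEigenvalue)

namespace Pool.Agent.Results.MP_5b0138_an.SameAnglesQuadsH92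

/-- the interior angle of the polygon at the vertex number `i` -/
noncomputable def interiorAngle (p : Fin (1 + 3) → ℂ) (i : Fin (1 + 3)) : ℝ :=
  EuclideanGeometry.angle (p (i - 1)) (p i) (p (i + 1))

/-- `p`, `q : Fin (1 + 3) → ℂ` with `IsConvexPolygon p`, `IsConvexPolygon q` list the vertices of
arbitrary convex quadrilaterals `region p`, `region q`, in counterclockwise order. The Dirichlet
eigenvalues number `k`, with multiplicity, defined by the min-max formula, agree for all but finitely
many `k`, and `φ : ℂ ≃ᵢ ℂ` is an isometry of the plane. -/
theorem result (p q : Fin (1 + 3) → ℂ) (hp : IsConvexPolygon p) (hq : IsConvexPolygon q)
    (hang : ∀ i, interiorAngle p i = interiorAngle q i)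
    (hspec : ∀ᶠ k in atTop, dirichletEigenvalue (region p) k = dirichletEigenvalue (region q) k) :
    ∃ φ : ℂ ≃ᵢ ℂ, φ '' region p = region q :=
  Pool.Agent.V7H92.GP.quad_all hp hq hang (Pool.Agent.R225.LP.almost hp hq hspec)

end Pool.Agent.Results.MP_5b0138_an.SameAnglesQuadsH92
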